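import Pool.Agent.H272R3.EC.Ds

set_option autoImplicit false
set_option linter.deprecated false

open Monoid Cardinal

namespace Pool.Agent.H272R3.EC

/-- finite systems over `Φ`, with prescribed values in `Q` -/
structure Sys (Φ Q : Type) [Group Φ] where
  n : ℕ
  E : List (Coprod Φ (FreeGroup (Fin n)))
  I : List (Coprod Φ (FreeGroup (Fin n)))
  q : Fin n → Q

theorem mk_coprod_le (A B : Type) [Group A] [Group B] (κ : Cardinal.{0}) (hκ : ℵ₀ ≤ κ)
    (hA : #A ≤ κ) (hB : #B ≤ κ) : #(Coprod A B) ≤ κ := by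
  have h1 : #(Coprod A B) ≤ #(FreeMonoid (A ⊕ B)) :=
    Cardinal.mk_le_of_surjective (f := (Coprod.mk : FreeMonoid (A ⊕ B) →* Coprod A B)) Coprod.mk_surjective
  have h2 : #(FreeMonoid (A ⊕ B)) ≤ max ℵ₀ #(A ⊕ B) := Cardinal.mk_list_le_max (A ⊕ B)
  have h3 : #(A ⊕ B) ≤ κ := by
    rw [Cardinal.mk_sum, Cardinal.lift_id, Cardinal.lift_id]
    exact Cardinal.add_le_of_le hκ hA hB
  exact h1.trans (h2.trans (max_le hκ h3))

theorem mk_freeGroup_le (A : Type) (κ : Cardinal.{0}) (hκ : ℵ₀ ≤ κ)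
    (hA : #A ≤ κ) : #(FreeGroup A) ≤ κ := by
  classical
  have h1 : #(FreeGroup A) ≤ #(List (A × Bool)) :=
    Cardinal.mk_le_of_injective (f := FreeGroup.toWord) FreeGroup.toWord_injective
  have h2 : #(List (A × Bool)) ≤ max ℵ₀ #(A × Bool) := Cardinal.mk_list_le_max _
  have h3 : #(A × Bool) ≤ κ := by
    rw [Cardinal.mk_prod, Cardinal.lift_id, Cardinal.lift_id]
    exact (mul_le_mul' hA ((Cardinal.mk_le_aleph0 (α := Bool)).trans hκ)).trans
      (Cardinal.mul_eq_self hκ).le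
  exact h1.trans (h2.trans (max_le hκ h3))

theorem mk_sys_le (Φ Q : Type) [Group Φ] (κ : Cardinal.{0}) (hκ : ℵ₀ ≤ κ)
    (hΦ : #Φ ≤ κ) (hQ : #Q ≤ κ) : #(Sys Φ Q × ℕ) ≤ κ := by
  have hL : ∀ n : ℕ, #(List (Coprod Φ (FreeGroup (Fin n)))) ≤ κ := fun n => by
    refine (Cardinal.mk_list_le_max _).trans (max_le hκ ?_)
    exact mk_coprod_le _ _ κ hκ hΦ (mk_freeGroup_le _ κ hκ
      ((Cardinal.mk_le_aleph0 (α := Fin n)).trans hκ))
  have hq : ∀ n : ℕ, #(Fin n → Q) ≤ κ := fun n => by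
    rw [← Cardinal.power_def, Cardinal.mk_fin]
    exact (Cardinal.power_le_power_right hQ).trans (Cardinal.power_nat_le hκ)
  have h1 : #(Sys Φ Q) ≤ #(Σ n : ℕ, (List (Coprod Φ (FreeGroup (Fin n))) ×
      List (Coprod Φ (FreeGroup (Fin n)))) × (Fin n → Q)) := by
    refine Cardinal.mk_le_of_injective (f := fun s => ⟨s.n, ((s.E, s.I), s.q)⟩) ?_
    rintro ⟨n, E, I, q⟩ ⟨n', E', I', q'⟩ h
    simp only [Sigma.mk.injEq] at h
    obtain ⟨h1, h2⟩ := h
    subst h1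
    simp only [heq_eq_eq, Prod.mk.injEq] at h2
    obtain ⟨⟨h3, h4⟩, h5⟩ := h2
    subst h3 h4 h5
    rfl
  have h2 : #(Σ n : ℕ, (List (Coprod Φ (FreeGroup (Fin n))) ×
      List (Coprod Φ (FreeGroup (Fin n)))) × (Fin n → Q)) ≤ κ := by
    rw [Cardinal.mk_sigma]
    have : ∀ n : ℕ, #((List (Coprod Φ (FreeGroup (Fin n))) ×
      List (Coprod Φ (FreeGroup (Fin n)))) × (Fin n → Q)) ≤ κ := fun n => by
      simp only [Cardinal.mk_prod, Cardinal.lift_id]

      exact (mul_le_mul' ((mul_le_mul' (hL n) (hL n)).trans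
        (Cardinal.mul_eq_self hκ).le) (hq n)).trans (Cardinal.mul_eq_self hκ).le
    refine (Cardinal.sum_le_sum _ _ this).trans ?_
    rw [Cardinal.sum_const, Cardinal.lift_id, Cardinal.lift_id]
    exact (mul_le_mul' (Cardinal.mk_le_aleph0.trans hκ) le_rfl).trans
      (Cardinal.mul_eq_self hκ).le
  rw [Cardinal.mk_prod, Cardinal.lift_id, Cardinal.lift_id]
  exact (mul_le_mul' (h1.trans h2) (Cardinal.mk_le_aleph0.trans hκ)).trans
      (Cardinal.mul_eq_self hκ).le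

/-- a set of names of variables: each system over the free product of `G₀` and the free group on
the names gets its own variables -/
theorem exists_names (Q G₀ : Type) [Group G₀] : ∃ Ω : Type,
    Nonempty ((Σ s : Sys (Coprod G₀ (FreeGroup Ω)) Q, Fin s.n) ↪ Ω) := by
  refine ⟨(G₀ ⊕ Q) ⊕ ℕ, ?_⟩
  set Ω := (G₀ ⊕ Q) ⊕ ℕ with hΩ
  have hκ : ℵ₀ ≤ #Ω := Cardinal.aleph0_le_mk Ω
  have hG : #G₀ ≤ #Ω := Cardinal.mk_le_of_injective (f := fun g => (Sum.inl (Sum.inl g) : Ω))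
    (fun a b h => by first | exact Sum.inl_injective (Sum.inl_injective h) | exact Sum.inr_injective (Sum.inl_injective h))
  have hQ : #Q ≤ #Ω := Cardinal.mk_le_of_injective (f := fun g => (Sum.inl (Sum.inr g) : Ω))
    (fun a b h => by first | exact Sum.inl_injective (Sum.inl_injective h) | exact Sum.inr_injective (Sum.inl_injective h))
  have h1 := mk_sys_le (Coprod G₀ (FreeGroup Ω)) Q #Ω hκ
    (mk_coprod_le _ _ _ hκ hG (mk_freeGroup_le _ _ hκ le_rfl)) hQ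
  have h2 : #(Σ s : Sys (Coprod G₀ (FreeGroup Ω)) Q, Fin s.n) ≤ #Ω := by
    refine le_trans (Cardinal.mk_le_of_injective (f := fun p => (p.1, (p.2 : ℕ))) ?_) h1
    rintro ⟨s, i⟩ ⟨t, j⟩ h
    simp only [Prod.mk.injEq] at h
    obtain ⟨h3, h4⟩ := h
    subst h3
    have : i = j := Fin.ext h4
    subst this
    rfl
  exact (Cardinal.le_def _ _).1 h2

end Pool.Agent.H272R3.EC
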