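import Pool.Agent.H272R3.EC.Stmts

set_option autoImplicit false
set_option linter.deprecated false

namespace Pool.Agent.H272R3.EC

/-- derived series of a subgroup, inside the ambient group -/
def ds {G : Type} [Group G] (A : Subgroup G) : ℕ → Subgroup G
  | 0 => A
  | n + 1 => ⁅ds A n, ds A n⁆

theorem ds_succ {G : Type} [Group G] (A : Subgroup G) (n : ℕ) : ds A (n + 1) = ⁅ds A n, ds A n⁆ := rfl

theorem ds_map {G H : Type} [Group G] [Group H] (f : G →* H) (A : Subgroup G) (n : ℕ) :
    (ds A n).map f = ds (A.map f) n := by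
  induction n with
  | zero => rfl
  | succ n ih => rw [ds_succ, ds_succ, Subgroup.map_commutator, ih]

theorem ds_mono {G : Type} [Group G] {A B : Subgroup G} (h : A ≤ B) (n : ℕ) : ds A n ≤ ds B n := by
  induction n with
  | zero => exact h
  | succ n ih => exact Subgroup.commutator_mono ih ih

theorem derivedSeries_map {G : Type} [Group G] (A : Subgroup G) (n : ℕ) :
    (derivedSeries ↥A n).map A.subtype = ds A n := by
  induction n with
  | zero =>
    show (⊤ : Subgroup ↥A).map A.subtype = A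
    rw [← MonoidHom.range_eq_map, Subgroup.range_subtype]
  | succ n ih => rw [derivedSeries_succ, Subgroup.map_commutator, ih, ds_succ]

theorem solvable_iff {G : Type} [Group G] (A : Subgroup G) :
    IsSolvable ↥A ↔ ∃ n, ds A n = ⊥ := by
  constructor
  · intro h
    obtain ⟨n, hn⟩ := h.solvable
    refine ⟨n, ?_⟩
    rw [← derivedSeries_map, hn, Subgroup.map_bot]
  · rintro ⟨n, hn⟩
    refine ⟨⟨n, ?_⟩⟩
    rw [← derivedSeries_map] at hn
    exact (Subgroup.map_eq_bot_iff_of_injective _ A.subtype_injective).1 hn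

theorem LS_iff (K : Type) [Group K] :
    LS K ↔ ∀ S : Set K, S.Finite → ∃ n, ds (Subgroup.closure S) n = ⊥ := by
  constructor
  · intro h S hS; exact (solvable_iff _).1 (h S hS)
  · intro h S hS; exact (solvable_iff _).2 (h S hS)

theorem LS_of_injective {G H : Type} [Group G] [Group H] (f : G →* H) (hf : Function.Injective f)
    (h : LS H) : LS G := by
  rw [LS_iff] at h ⊢
  intro S hS
  obtain ⟨n, hn⟩ := h (f '' S) (hS.image f)
  refine ⟨n, ?_⟩
  rw [← MonoidHom.map_closure, ← ds_map] at hn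
  exact (Subgroup.map_eq_bot_iff_of_injective _ hf).1 hn

theorem LS_of_surjective {G H : Type} [Group G] [Group H] (f : G →* H) (hf : Function.Surjective f)
    (h : LS G) : LS H := by
  rw [LS_iff] at h ⊢
  intro S hS
  classical
  choose s hs using hf
  obtain ⟨n, hn⟩ := h (s '' S) (hS.image s)
  refine ⟨n, ?_⟩
  have e : f '' (s '' S) = S := by
    rw [Set.image_image]
    simp [hs]
  rw [← e, ← MonoidHom.map_closure, ← ds_map, hn, Subgroup.map_bot]

theorem ds_prod_fst {G H : Type} [Group G] [Group H] (A : Subgroup (G × H)) (n : ℕ) (hn : ds (A.map (MonoidHom.fst G H)) n = ⊥)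
    (m : ℕ) (hm : ds (A.map (MonoidHom.snd G H)) m = ⊥) : ds A (max n m) = ⊥ := by
  have anti : ∀ {K : Type} [Group K] (B : Subgroup K) (i j : ℕ), i ≤ j → ds B i = ⊥ → ds B j = ⊥ := by
    intro K _ B i j hij hi
    induction j, hij using Nat.le_induction with
    | base => exact hi
    | succ j _ ih => rw [ds_succ, ih]; exact Subgroup.commutator_bot_right _
  rw [eq_bot_iff]
  intro x hx
  have h1 : x.1 ∈ ds (A.map (MonoidHom.fst G H)) (max n m) := by
    rw [← ds_map]; exact ⟨x, hx, rfl⟩
  have h2 : x.2 ∈ ds (A.map (MonoidHom.snd G H)) (max n m) := by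
    rw [← ds_map]; exact ⟨x, hx, rfl⟩
  rw [anti _ n _ (le_max_left _ _) hn] at h1
  rw [anti _ m _ (le_max_right _ _) hm] at h2
  rw [Subgroup.mem_bot] at h1 h2 ⊢
  exact Prod.ext h1 h2

theorem LS_prod {G H : Type} [Group G] [Group H] (hG : LS G) (hH : LS H) : LS (G × H) := by
  rw [LS_iff] at hG hH ⊢
  intro S hS
  obtain ⟨n, hn⟩ := hG (MonoidHom.fst G H '' S) (hS.image _)
  obtain ⟨m, hm⟩ := hH (MonoidHom.snd G H '' S) (hS.image _)
  refine ⟨max n m, ds_prod_fst _ n ?_ m ?_⟩
  · rw [MonoidHom.map_closure]; exact hn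
  · rw [MonoidHom.map_closure]; exact hm

end Pool.Agent.H272R3.EC
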