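import Pool.Agent.H272R3.EC.TaskAProof

set_option autoImplicit false
set_option linter.deprecated false

open Monoid

namespace Pool.Agent.H272R3.EC

/-- existentially closed among the locally soluble groups -/
def EC (G : Type) [Group G] : Prop :=
  ∀ (H : Type) [Group H], LS H → ∀ ι : G →* H, Function.Injective ι →
    ∀ (n : ℕ) (E I : List (Monoid.Coprod G (FreeGroup (Fin n)))),
      (∃ φ : Monoid.Coprod G (FreeGroup (Fin n)) →* H,
          φ.comp Monoid.Coprod.inl = ι ∧ (∀ w ∈ E, φ w = 1) ∧ (∀ w ∈ I, φ w ≠ 1)) →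
      (∃ ψ : Monoid.Coprod G (FreeGroup (Fin n)) →* G,
          ψ.comp Monoid.Coprod.inl = MonoidHom.id G ∧ (∀ w ∈ E, ψ w = 1) ∧
            (∀ w ∈ I, ψ w ≠ 1))

/-- kernel elements are commutators of kernel elements -/
theorem step_i (hW1 : TaskW1) {Q G : Type} [Group Q] [Group G] (hQ : LS Q) (hG : LS G)
    (π : G →* Q) (hec : ECQ π) (h : G) (hh : π h = 1) :
    ∃ a b : G, π a = 1 ∧ π b = 1 ∧ h = a * b * a⁻¹ * b⁻¹ := by
  obtain ⟨H, _, ι, πH, hH, hι, hπ, a, b, ha, hb, hab⟩ := hW1 Q G π hG hQ h hh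
  let A : Coprod G (FreeGroup (Fin 2)) := Coprod.inr (FreeGroup.of 0)
  let B : Coprod G (FreeGroup (Fin 2)) := Coprod.inr (FreeGroup.of 1)
  let w : Coprod G (FreeGroup (Fin 2)) := Coprod.inl h * (A * B * A⁻¹ * B⁻¹)⁻¹
  have hev : ∀ {K : Type} [Group K] (κ : G →* K) (x : Fin 2 → K),
      ev κ x w = κ h * (x 0 * x 1 * (x 0)⁻¹ * (x 1)⁻¹)⁻¹ := by
    intro K _ κ x
    simp only [w, A, B, map_mul, map_inv, ev_inl, ev_var]
  obtain ⟨y, hy1, -, hy3⟩ := hec H hH ι πH hι hπ 2 [w] [] ![a, b] (by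
    intro u hu
    rw [List.mem_singleton] at hu
    subst hu
    rw [hev, hab]
    simp) (by simp)
  have h1 := hy1 w (List.mem_singleton.2 rfl)
  rw [hev, MonoidHom.id_apply, mul_inv_eq_one] at h1
  refine ⟨y 0, y 1, ?_, ?_, h1⟩
  · rw [hy3 0]; exact ha
  · rw [hy3 1]; exact hb

theorem map_cc {H K : Type} [Group H] [Group K] (f : H →* K) (a b g : H) :
    f (cc a b g) = cc (f a) (f b) (f g) := by
  unfold cc
  simp only [map_mul, map_inv]

theorem cc_mem {G : Type} [Group G] (a b g : G) : cc a b g ∈ Subgroup.normalClosure {g} := by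
  have hg : g ∈ Subgroup.normalClosure {g} := Subgroup.subset_normalClosure (Set.mem_singleton g)
  have h1 : b * g * b⁻¹ ∈ Subgroup.normalClosure {g} :=
    Subgroup.Normal.conj_mem inferInstance g hg b
  have h2 : b * g * b⁻¹ * g⁻¹ ∈ Subgroup.normalClosure {g} :=
    Subgroup.mul_mem _ h1 (Subgroup.inv_mem _ hg)
  have h3 : a * (b * g * b⁻¹ * g⁻¹) * a⁻¹ ∈ Subgroup.normalClosure {g} :=
    Subgroup.Normal.conj_mem inferInstance _ h2 a
  exact Subgroup.mul_mem _ h3 (Subgroup.inv_mem _ h2)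

/-- the kernel is in the normal closure of every element outside of it -/
theorem step_ii (hW1 : TaskW1) (hW2 : TaskW2) {Q G : Type} [Group Q] [Group G] (hQ : LS Q)
    (hG : LS G) (π : G →* Q) (hec : ECQ π) (g h : G) (hg : π g ≠ 1) (hh : π h = 1) :
    h ∈ Subgroup.normalClosure {g} := by
  obtain ⟨a₀, b₀, -, -, h0⟩ := step_i hW1 hQ hG π hec h hh
  obtain ⟨H, _, ι, πH, hH, hι, hπ, a₁, b₁, a₂, b₂, a₃, b₃, hab⟩ :=
    hW2 Q G π hG hQ g h a₀ b₀ hg hh h0
  let X : Fin 6 → Coprod G (FreeGroup (Fin 6)) := fun i => Coprod.inr (FreeGroup.of i)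
  let w : Coprod G (FreeGroup (Fin 6)) := Coprod.inl h *
    (cc (X 0) (X 1) (Coprod.inl g) * cc (X 2) (X 3) (Coprod.inl g) *
      cc (X 4) (X 5) (Coprod.inl g))⁻¹
  have hev : ∀ {K : Type} [Group K] (κ : G →* K) (x : Fin 6 → K),
      ev κ x w = κ h * (cc (x 0) (x 1) (κ g) * cc (x 2) (x 3) (κ g) * cc (x 4) (x 5) (κ g))⁻¹ := by
    intro K _ κ x
    simp only [w, X, map_mul, map_inv, ev_inl, ev_var, map_cc]
  obtain ⟨y, hy1, -, -⟩ := hec H hH ι πH hι hπ 6 [w] [] ![a₁, b₁, a₂, b₂, a₃, b₃] (by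
    intro u hu
    rw [List.mem_singleton] at hu
    subst hu
    rw [hev, mul_inv_eq_one, hab]
    rfl) (by simp)
  have h1 := hy1 w (List.mem_singleton.2 rfl)
  rw [hev, MonoidHom.id_apply, MonoidHom.id_apply, mul_inv_eq_one] at h1
  rw [h1]
  exact Subgroup.mul_mem _ (Subgroup.mul_mem _ (cc_mem _ _ _) (cc_mem _ _ _)) (cc_mem _ _ _)

/-- the normal closure of the kernel in an overgroup -/
theorem step_iii (hV : TaskV) {Q G : Type} [Group Q] [Group G] (π : G →* Q)
    (h1 : ∀ h, π h = 1 → ∃ a b : G, π a = 1 ∧ π b = 1 ∧ h = a * b * a⁻¹ * b⁻¹)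
    (h2 : ∀ g h, π g ≠ 1 → π h = 1 → h ∈ Subgroup.normalClosure {g})
    {H : Type} [Group H] (hH : LS H) (ι : G →* H) (hι : Function.Injective ι) (g : G)
    (hg : ι g ∈ Subgroup.normalClosure (ι '' (π.ker : Set G))) : π g = 1 := by
  by_contra hne
  have h3 : ∀ a, π a = 1 → ι a ∈ Subgroup.normalClosure {ι g} := by
    intro a ha
    have : Subgroup.normalClosure {g} ≤ (Subgroup.normalClosure {ι g}).comap ι := by
      apply Subgroup.normalClosure_le_normal
      rw [Set.singleton_subset_iff]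
      exact Subgroup.subset_normalClosure (Set.mem_singleton _)
    exact this (h2 g a hne ha)
  have h4 : Subgroup.normalClosure (ι '' (π.ker : Set G)) ≤
      ⁅Subgroup.normalClosure {ι g}, Subgroup.normalClosure {ι g}⁆ := by
    apply Subgroup.normalClosure_le_normal
    rintro _ ⟨h, hh, rfl⟩
    obtain ⟨a, b, ha, hb, rfl⟩ := h1 h hh
    have := Subgroup.commutator_mem_commutator (h3 a ha) (h3 b hb)
    rw [commutatorElement_def] at this
    rw [map_mul, map_mul, map_mul, map_inv, map_inv]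
    exact this
  have h5 := hV H hH (ι g) (h4 hg)
  apply hne
  rw [hι (h5.trans (map_one ι).symm), map_one]

/-- `G` is existentially closed. -/
theorem step_iv {Q G : Type} [Group Q] [Group G] (hQ : LS Q) (π : G →* Q)
    (hs : Function.Surjective π) (hec : ECQ π)
    (hecQ : ∀ (H : Type) [Group H], LS H → ∀ κ : Q →* H, Function.Injective κ →
      ∀ (n : ℕ) (E : List (Coprod Q (FreeGroup (Fin n)))) (x : Fin n → H),
        (∀ w ∈ E, ev κ x w = 1) → ∃ y : Fin n → Q, ∀ w ∈ E, ev (MonoidHom.id Q) y w = 1)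
    (h3 : ∀ (H : Type) [Group H], LS H → ∀ ι : G →* H, Function.Injective ι → ∀ g,
      ι g ∈ Subgroup.normalClosure (ι '' (π.ker : Set G)) → π g = 1) : EC G := by
  intro H _ hH ι hι n E I hφ
  obtain ⟨φ, hφ1, hφE, hφI⟩ := hφ
  let x : Fin n → H := fun i => φ (Coprod.inr (FreeGroup.of i))
  have hφx : φ = ev ι x := by
    apply coprod_ext
    · intro a
      rw [ev_inl, ← hφ1]; rfl
    · intro i
      rw [ev_var]
  set M := Subgroup.normalClosure (ι '' (π.ker : Set G)) with hM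
  have hker : π.ker ≤ ((QuotientGroup.mk' M).comp ι).ker := by
    intro g hg
    rw [MonoidHom.mem_ker, MonoidHom.comp_apply, QuotientGroup.mk'_apply, QuotientGroup.eq_one_iff]
    exact Subgroup.subset_normalClosure ⟨g, hg, rfl⟩
  let κ : Q →* H ⧸ M := π.liftOfSurjective hs ⟨(QuotientGroup.mk' M).comp ι, hker⟩
  have hκ : ∀ g, κ (π g) = QuotientGroup.mk' M (ι g) := fun g =>
    MonoidHom.liftOfRightInverse_comp_apply _ _ _ ⟨(QuotientGroup.mk' M).comp ι, hker⟩ g
  have hκi : Function.Injective κ := by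
    rw [injective_iff_map_eq_one]
    intro q hq
    obtain ⟨g, rfl⟩ := hs q
    rw [hκ, QuotientGroup.mk'_apply, QuotientGroup.eq_one_iff] at hq
    exact h3 H hH ι hι g hq
  have hHM : LS (H ⧸ M) := LS_of_surjective (QuotientGroup.mk' M) (QuotientGroup.mk'_surjective M) hH
  have e1 : ∀ w, ev κ (fun i => QuotientGroup.mk' M (x i)) (Coprod.map π (MonoidHom.id _) w) =
      QuotientGroup.mk' M (ev ι x w) := by
    intro w
    have : (ev κ (fun i => QuotientGroup.mk' M (x i))).comp (Coprod.map π (MonoidHom.id _)) =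
        (QuotientGroup.mk' M).comp (ev ι x) := by
      apply coprod_ext
      · intro a
        simp only [MonoidHom.comp_apply, Coprod.map_apply_inl, ev_inl]
        exact hκ a
      · intro i
        simp only [MonoidHom.comp_apply, Coprod.map_apply_inr, MonoidHom.id_apply, ev_var]
    exact DFunLike.congr_fun this w
  obtain ⟨y, hy⟩ := hecQ (H ⧸ M) hHM κ hκi n (E.map (Coprod.map π (MonoidHom.id _)))
    (fun i => QuotientGroup.mk' M (x i)) (by
      intro w hw
      obtain ⟨w0, hw0, rfl⟩ := List.mem_map.1 hw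
      rw [e1, ← hφx, hφE w0 hw0, map_one])
  have hι' : Function.Injective (ι.prod π) := fun a b hab => hι (congrArg Prod.fst hab)
  have e2 : ∀ w, ev (ι.prod π) (fun i => (x i, y i)) w =
      (ev ι x w, ev (MonoidHom.id Q) y (Coprod.map π (MonoidHom.id _) w)) := by
    intro w
    have : ev (ι.prod π) (fun i => (x i, y i)) =
        (ev ι x).prod ((ev (MonoidHom.id Q) y).comp (Coprod.map π (MonoidHom.id _))) := by
      apply coprod_ext
      · intro a
        simp only [MonoidHom.prod_apply, MonoidHom.comp_apply, Coprod.map_apply_inl, ev_inl,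
          MonoidHom.id_apply]
      · intro i
        simp only [MonoidHom.prod_apply, MonoidHom.comp_apply, Coprod.map_apply_inr,
          MonoidHom.id_apply, ev_var]
    exact DFunLike.congr_fun this w
  obtain ⟨z, hz1, hz2, -⟩ := hec (H × Q) (LS_prod hH hQ) (ι.prod π) (MonoidHom.snd H Q) hι'
    (MonoidHom.snd_comp_prod ι π) n E I (fun i => (x i, y i)) (by
      intro w hw
      rw [e2, ← hφx, hφE w hw, hy _ (List.mem_map_of_mem hw)]
      rfl) (by
      intro w hw
      rw [e2, ← hφx]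
      intro hc
      exact hφI w hw (congrArg Prod.fst hc))
  refine ⟨ev (MonoidHom.id G) z, ?_, hz1, hz2⟩
  ext a
  rw [MonoidHom.comp_apply, ev_inl]

theorem main (hA : TaskA) (hW1 : TaskW1) (hW2 : TaskW2) (hV : TaskV) (hN0 : TaskN0) :
    ∃ (G : Type) (_ : Group G), LS G ∧ EC G ∧
      ∃ R : Subgroup G, R.Characteristic ∧ R ≠ ⊥ ∧ R ≠ ⊤ := by
  -- the group Q
  have hLS0 : LS (Multiplicative (ZMod 2)) := fun S _ => (inferInstance : Group.IsSolvable ↥(Subgroup.closure S))
  obtain ⟨Q, _, π₁, j₁, hQ, hj₁, -, hec₁⟩ := hA PUnit (Multiplicative (ZMod 2)) 1 hLS0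
  have hecQ : ∀ (H : Type) [Group H], LS H → ∀ κ : Q →* H, Function.Injective κ →
      ∀ (n : ℕ) (E : List (Coprod Q (FreeGroup (Fin n)))) (x : Fin n → H),
        (∀ w ∈ E, ev κ x w = 1) → ∃ y : Fin n → Q, ∀ w ∈ E, ev (MonoidHom.id Q) y w = 1 := by
    intro H _ hH κ hκ n E x hx
    obtain ⟨y, hy, -, -⟩ := hec₁ H hH κ 1 hκ (by ext) n E [] x hx (by simp)
    exact ⟨y, hy⟩
  have hQ1 : ∃ q : Q, q ≠ 1 := by
    refine ⟨j₁ (Multiplicative.ofAdd 1), fun h => ?_⟩
    have := hj₁ (h.trans (map_one j₁).symm)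
    exact absurd this (by decide)
  obtain ⟨N, _, hN, z, hz, hzf⟩ := hN0 Q
  obtain ⟨G, _, π, j, hG, hj, hπj, hec⟩ := hA Q (N × Q) (MonoidHom.snd N Q) (LS_prod hN hQ)
  have hπj' : ∀ p, π (j p) = p.2 := fun p => DFunLike.congr_fun hπj p
  have hs : Function.Surjective π := fun q => ⟨j (1, q), hπj' _⟩
  have h1 := step_i hW1 hQ hG π hec
  have h2 := step_ii hW1 hW2 hQ hG π hec
  have h3 : ∀ (H : Type) [Group H], LS H → ∀ ι : G →* H, Function.Injective ι → ∀ g,
      ι g ∈ Subgroup.normalClosure (ι '' (π.ker : Set G)) → π g = 1 :=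
    fun H _ hH ι hι g hg => step_iii hV π h1 h2 hH ι hι g hg
  refine ⟨G, inferInstance, hG, step_iv hQ π hs hec hecQ h3, ⨅ f : G →* Q, f.ker, ?_, ?_, ?_⟩
  · rw [Subgroup.characteristic_iff_le_comap]
    intro ϕ x hx
    rw [Subgroup.mem_comap, Subgroup.mem_iInf]
    rw [Subgroup.mem_iInf] at hx
    intro f
    exact hx (f.comp ϕ.toMonoidHom)
  · intro h
    have hmem : j (z, 1) ∈ ⨅ f : G →* Q, f.ker := by
      rw [Subgroup.mem_iInf]
      intro f
      exact hzf ((f.comp j).comp (MonoidHom.inl N Q))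
    rw [h, Subgroup.mem_bot] at hmem
    have := hj (hmem.trans (map_one j).symm)
    exact hz (congrArg Prod.fst this)
  · intro h
    obtain ⟨q, hq⟩ := hQ1
    have hmem : j (1, q) ∈ ⨅ f : G →* Q, f.ker := by rw [h]; exact Subgroup.mem_top _
    rw [Subgroup.mem_iInf] at hmem
    have := hmem π
    rw [MonoidHom.mem_ker, hπj'] at this
    exact hq this

end Pool.Agent.H272R3.EC
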