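import Pool.Agent.H272R3.EC.Ds

set_option autoImplicit false

namespace Pool.Agent.H272R3.EC.N0

/-- the scaling action of `Fˣ` on the additive group of `F` -/
def act (F : Type) [Field F] : Fˣ →* MulAut (Multiplicative F) where
  toFun u :=
    { toFun := fun x => Multiplicative.ofAdd ((u : F) * x.toAdd)
      invFun := fun x => Multiplicative.ofAdd (((u⁻¹ : Fˣ) : F) * x.toAdd)
      left_inv := fun x => by simp
      right_inv := fun x => by simp
      map_mul' := fun x y => by
        rw [← ofAdd_add, toAdd_mul, mul_add] }
  map_one' := by
    ext x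
    simp
  map_mul' u v := by
    ext x
    simp [mul_assoc]

theorem act_apply {F : Type} [Field F] (u : Fˣ) (x : F) :
    act F u (Multiplicative.ofAdd x) = Multiplicative.ofAdd ((u : F) * x) := rfl

theorem solv (F : Type) [Field F] : Group.IsSolvable (Multiplicative F ⋊[act F] Fˣ) := by
  refine Group.isSolvable_of_ker_le_range (SemidirectProduct.inl : Multiplicative F →* _)
    (SemidirectProduct.rightHom : (Multiplicative F ⋊[act F] Fˣ) →* Fˣ) ?_
  rw [← SemidirectProduct.range_inl_eq_ker_rightHom]

theorem n0 : TaskN0 := by
  intro Q _
  let F := FractionRing (MvPolynomial (Set Q) ℚ)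
  refine ⟨Multiplicative F ⋊[act F] Fˣ, inferInstance, ?_, ?_⟩
  · intro S _
    have := solv F
    exact (inferInstance : Group.IsSolvable ↥(Subgroup.closure S))
  · refine ⟨SemidirectProduct.inl (Multiplicative.ofAdd (1 : F)), ?_, ?_⟩
    · intro h
      have h1 : (SemidirectProduct.inl (Multiplicative.ofAdd (1 : F)) :
          Multiplicative F ⋊[act F] Fˣ) = SemidirectProduct.inl 1 := by
        rw [h, map_one]
      have h2 := SemidirectProduct.inl_injective h1
      have h3 : (1 : F) = 0 := h2
      exact one_ne_zero h3
    · intro f
      have hni : ¬ Function.Injective (fun c : F =>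
          f (SemidirectProduct.inl (Multiplicative.ofAdd c))) := by
        intro hinj
        have hX : Function.Injective (fun s : Set Q =>
            algebraMap (MvPolynomial (Set Q) ℚ) F (MvPolynomial.X s)) := by
          intro s t hst
          exact MvPolynomial.X_injective (IsFractionRing.injective (MvPolynomial (Set Q) ℚ) F hst)
        exact Function.cantor_injective _ (hinj.comp hX)
      rw [Function.Injective] at hni
      push Not at hni
      obtain ⟨c, c1, hc, hne⟩ := hni
      have hd : c - c1 ≠ 0 := sub_ne_zero.2 hne
      have h1 : f (SemidirectProduct.inl (Multiplicative.ofAdd (c - c1))) = 1 := by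
        rw [ofAdd_sub, map_div, map_div]
        exact div_eq_one.2 hc
      let u : Fˣ := (Units.mk0 (c - c1) hd)⁻¹
      have h2 : (SemidirectProduct.inl (Multiplicative.ofAdd (1 : F)) :
          Multiplicative F ⋊[act F] Fˣ) = SemidirectProduct.inr u *
            SemidirectProduct.inl (Multiplicative.ofAdd (c - c1)) * SemidirectProduct.inr u⁻¹ := by
        rw [← SemidirectProduct.inl_aut, act_apply]
        congr 2
        show (1 : F) = (u : F) * (c - c1)
        simp only [u, Units.val_inv_eq_inv_val, Units.val_mk0]
        rw [inv_mul_cancel₀ hd]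
      rw [h2, map_mul, map_mul, h1, mul_one, ← map_mul, ← map_mul, mul_inv_cancel, map_one, map_one]

end Pool.Agent.H272R3.EC.N0
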