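import Mathlib

/-!
# Existentially closed locally soluble groups which are not characteristically simple
(MP_b5e13b_al, frozen S02808): definitions and task statements.
-/

set_option autoImplicit false

namespace Pool.Agent.H272R3.EC

/-- locally soluble groups -/
def LS (K : Type) [Group K] : Prop := ∀ S : Set K, S.Finite → IsSolvable ↥(Subgroup.closure S)

/-- evaluation of words with constants in `G` (read in `H` through `ι`) at the point `x` -/
noncomputable def ev {G H : Type} [Group G] [Group H] (ι : G →* H) {n : ℕ} (x : Fin n → H) :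
    Monoid.Coprod G (FreeGroup (Fin n)) →* H := Monoid.Coprod.lift ι (FreeGroup.lift x)

/-- `(G, π)` is existentially closed among the locally soluble groups over `Q` (the solution found
in `G` has the same image in `Q`). -/
def ECQ {Q G : Type} [Group Q] [Group G] (π : G →* Q) : Prop :=
  ∀ (H : Type) [Group H], LS H → ∀ (ι : G →* H) (πH : H →* Q),
    Function.Injective ι → πH.comp ι = π →
    ∀ (n : ℕ) (E I : List (Monoid.Coprod G (FreeGroup (Fin n)))) (x : Fin n → H),
      (∀ w ∈ E, ev ι x w = 1) → (∀ w ∈ I, ev ι x w ≠ 1) →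
      ∃ y : Fin n → G, (∀ w ∈ E, ev (MonoidHom.id G) y w = 1) ∧
        (∀ w ∈ I, ev (MonoidHom.id G) y w ≠ 1) ∧ ∀ i, π (y i) = πH (x i)

/-- Task A: every locally soluble group over `Q` embeds into an existentially closed one. -/
def TaskA : Prop := ∀ (Q G₀ : Type) [Group Q] [Group G₀] (π₀ : G₀ →* Q), LS G₀ →
  ∃ (G : Type) (_ : Group G) (π : G →* Q) (j : G₀ →* G),
    LS G ∧ Function.Injective j ∧ π.comp j = π₀ ∧ ECQ π

/-- Task W1: an element `h` of the kernel becomes a commutator of elements of the kernel in some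
overgroup over `Q`. (Overgroup: `W × Q`, `W` = the pairs `(f, m)` in `(ℤ → G) ⋊ Multiplicative ℤ`
such that the values of `f` lie in a finitely generated subgroup; `g ↦ ((const g, 1), π g)`;
`a = (n ↦ h ^ n, 1)`, `b` = the shift.) -/
def TaskW1 : Prop := ∀ (Q G : Type) [Group Q] [Group G] (π : G →* Q), LS G → LS Q →
  ∀ h : G, π h = 1 → ∃ (H : Type) (_ : Group H) (ι : G →* H) (πH : H →* Q),
    LS H ∧ Function.Injective ι ∧ πH.comp ι = π ∧
      ∃ a b : H, πH a = 1 ∧ πH b = 1 ∧ ι h = a * b * a⁻¹ * b⁻¹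

/-- the word `[a, [b, g]]` -/
def cc {H : Type} [Group H] (a b g : H) : H :=
  a * (b * g * b⁻¹ * g⁻¹) * a⁻¹ * (b * g * b⁻¹ * g⁻¹)⁻¹

/-- Task W2: if `π g ≠ 1` and `h = [a₀, b₀]` is in the kernel then in some overgroup over `Q` the
element `h` is a product of three elements of the form `[a, [b, g]]`.
(Overgroup: the pairs `(f, q)` in `(Q → G) ⋊ Q`, left translation action of `Q` on itself, such
that the values of `f` lie in a finitely generated subgroup; `g ↦ (const g, π g)`. With
`q = π g ≠ 1` the set `Q` is a disjoint union of `Y₁, Y₂, Y₃` with `Yᵢ ∩ q Yᵢ = ∅`: `Y₁` maximal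
(Zorn) with this property, `Y₂ = q Y₁`, `Y₃` = the rest, which is in `q⁻¹ Y₁`. Take
`a = a₀` on `Y`, `1` elsewhere, `b = b₀` on `Y`, `1` elsewhere; then `[a, [b, g]] = h` on `Y` and
`1` elsewhere.) -/
def TaskW2 : Prop := ∀ (Q G : Type) [Group Q] [Group G] (π : G →* Q), LS G → LS Q →
  ∀ g h a₀ b₀ : G, π g ≠ 1 → π h = 1 → h = a₀ * b₀ * a₀⁻¹ * b₀⁻¹ →
    ∃ (H : Type) (_ : Group H) (ι : G →* H) (πH : H →* Q),
      LS H ∧ Function.Injective ι ∧ πH.comp ι = π ∧
        ∃ a₁ b₁ a₂ b₂ a₃ b₃ : H,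
          ι h = cc a₁ b₁ (ι g) * cc a₂ b₂ (ι g) * cc a₃ b₃ (ι g)

/-- Task V: in a locally soluble group an element `g ≠ 1` is not in the derived group of its normal
closure. (For a subgroup `K` put `V_K = closure {k g k⁻¹ | k ∈ K}`; by closure induction there is a
finitely generated `K ∋ g` with `g ∈ ⁅V_K, V_K⁆`; then `V_K = ⁅V_K, V_K⁆ ≤ K`, so `V_K = ⊥`.) -/
def TaskV : Prop := ∀ (H : Type) [Group H], LS H → ∀ g : H,
  g ∈ ⁅Subgroup.normalClosure {g}, Subgroup.normalClosure {g}⁆ → g = 1

/-- Task N0: for every group `Q` some locally soluble group has an element `z ≠ 1` killed by all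
homomorphisms to `Q`. (`N₀ = F ⋊ Fˣ`, `F` a field with more elements than `Q`, e.g. the fraction
field of `MvPolynomial I ℚ`; `z` = translation by `1`.) -/
def TaskN0 : Prop := ∀ (Q : Type) [Group Q], ∃ (N : Type) (_ : Group N),
  LS N ∧ ∃ z : N, z ≠ 1 ∧ ∀ f : N →* Q, f z = 1

end Pool.Agent.H272R3.EC
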