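import Pool.Agent.H272R3.EC.Zorn

set_option autoImplicit false
set_option linter.deprecated false
set_option linter.unusedSectionVars false

open Monoid

namespace Pool.Agent.H272R3.EC

theorem ds_le {G : Type} [Group G] (A : Subgroup G) (n : ℕ) : ds A n ≤ A := by
  induction n with
  | zero => exact le_rfl
  | succ n ih =>
    rw [ds_succ]
    exact (Subgroup.commutator_mono ih ih).trans (Subgroup.commutator_le.2 (fun a ha b hb => by
      rw [commutatorElement_def]
      exact A.mul_mem (A.mul_mem (A.mul_mem ha hb) (A.inv_mem ha)) (A.inv_mem hb)))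

theorem ev_inl {G H : Type} [Group G] [Group H] (ι : G →* H) {n : ℕ} (x : Fin n → H) (g : G) :
    ev ι x (Coprod.inl g) = ι g := by
  unfold ev; rw [Coprod.lift_apply_inl]

theorem ev_var {G H : Type} [Group G] [Group H] (ι : G →* H) {n : ℕ} (x : Fin n → H) (i : Fin n) :
    ev ι x (Coprod.inr (FreeGroup.of i)) = x i := by
  unfold ev; rw [Coprod.lift_apply_inr, FreeGroup.lift_apply_of]

/-- two homomorphisms from a free product with a free group agree -/
theorem coprod_ext {G H : Type} [Group G] [Group H] {n : ℕ}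
    {f g : Coprod G (FreeGroup (Fin n)) →* H}
    (h1 : ∀ a, f (Coprod.inl a) = g (Coprod.inl a))
    (h2 : ∀ i, f (Coprod.inr (FreeGroup.of i)) = g (Coprod.inr (FreeGroup.of i))) : f = g := by
  apply Coprod.hom_ext
  · ext a; exact h1 a
  · ext i; exact h2 i

namespace A

variable {Q G₀ Ω : Type} [Group Q] [Group G₀] (π₀ : G₀ →* Q)
  (v : (Σ s : Sys (Phi G₀ Ω) Q, Fin s.n) ↪ Ω)

instance normN (m : PO π₀ v) : (m.K.subgroupOf (PhiT v m.T)).Normal := by
  constructor
  intro k hk x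
  rw [Subgroup.mem_subgroupOf] at hk ⊢
  exact m.hnorm x.1 x.2 _ hk

/-- the group of a partial object -/
abbrev GG (m : PO π₀ v) : Type := ↥(PhiT v m.T) ⧸ (m.K.subgroupOf (PhiT v m.T))

/-- the quotient map -/
def mk (m : PO π₀ v) : ↥(PhiT v m.T) →* GG π₀ v m := QuotientGroup.mk' _

theorem mk_surj (m : PO π₀ v) : Function.Surjective (mk π₀ v m) := QuotientGroup.mk'_surjective _

theorem mk_eq_one (m : PO π₀ v) (p : ↥(PhiT v m.T)) : mk π₀ v m p = 1 ↔ p.1 ∈ m.K := by
  unfold mk
  rw [QuotientGroup.mk'_apply, QuotientGroup.eq_one_iff, Subgroup.mem_subgroupOf]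

/-- the map to `Q` -/
noncomputable def pi (m : PO π₀ v) : GG π₀ v m →* Q :=
  QuotientGroup.lift _ ((piO π₀ v).comp (PhiT v m.T).subtype) (fun p hp => by
    rw [Subgroup.mem_subgroupOf] at hp
    exact m.hQ _ hp)

theorem pi_mk (m : PO π₀ v) (p : ↥(PhiT v m.T)) : pi π₀ v m (mk π₀ v m p) = piO π₀ v p.1 := rfl

/-- the map from `G₀` -/
noncomputable def jj (m : PO π₀ v) : G₀ →* GG π₀ v m :=
  (mk π₀ v m).comp ((Coprod.inl : G₀ →* Phi G₀ Ω).codRestrict _ (inl_mem v m.T))

theorem jj_apply (m : PO π₀ v) (g : G₀) : jj π₀ v m g = mk π₀ v m ⟨Coprod.inl g, inl_mem v m.T g⟩ :=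
  rfl

theorem jj_inj (m : PO π₀ v) : Function.Injective (jj π₀ v m) := by
  rw [injective_iff_map_eq_one]
  intro g hg
  rw [jj_apply, mk_eq_one] at hg
  exact m.hinj g hg

theorem pi_jj (m : PO π₀ v) : (pi π₀ v m).comp (jj π₀ v m) = π₀ := by
  ext g
  rw [MonoidHom.comp_apply, jj_apply, pi_mk, piO_inl]

theorem LS_GG (m : PO π₀ v) : LS (GG π₀ v m) := by
  rw [LS_iff]
  intro S hS
  classical
  choose s hs using mk_surj π₀ v m
  obtain ⟨n, hn⟩ := m.hLS ((PhiT v m.T).subtype '' (s '' S)) ((hS.image s).image _) (by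
    rintro _ ⟨p, _, rfl⟩
    exact p.2)
  refine ⟨n, ?_⟩
  have e : mk π₀ v m '' (s '' S) = S := by
    rw [Set.image_image]
    simp [hs]
  rw [← e, ← MonoidHom.map_closure, ← ds_map, eq_bot_iff]
  rintro _ ⟨p, hp, rfl⟩
  rw [Subgroup.mem_bot, mk_eq_one]
  apply hn
  rw [← MonoidHom.map_closure, ← ds_map]
  exact ⟨p, hp, rfl⟩

/-- maps of words -/
noncomputable def mu (m : PO π₀ v) (n : ℕ) :
    Coprod (↥(PhiT v m.T)) (FreeGroup (Fin n)) →* Coprod (GG π₀ v m) (FreeGroup (Fin n)) :=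
  Coprod.map (mk π₀ v m) (MonoidHom.id _)

/-- maps of words -/
noncomputable def nu (m : PO π₀ v) (n : ℕ) :
    Coprod (↥(PhiT v m.T)) (FreeGroup (Fin n)) →* Coprod (Phi G₀ Ω) (FreeGroup (Fin n)) :=
  Coprod.map (PhiT v m.T).subtype (MonoidHom.id _)

theorem mu_surj (m : PO π₀ v) (n : ℕ) : Function.Surjective (mu π₀ v m n) := by
  intro w
  induction w using Coprod.induction_on with
  | inl a =>
    obtain ⟨p, rfl⟩ := mk_surj π₀ v m a
    exact ⟨Coprod.inl p, by unfold mu; rw [Coprod.map_apply_inl]⟩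
  | inr b => exact ⟨Coprod.inr b, by unfold mu; rw [Coprod.map_apply_inr]; rfl⟩
  | mul x y hx hy =>
    obtain ⟨a, rfl⟩ := hx
    obtain ⟨b, rfl⟩ := hy
    exact ⟨a * b, map_mul _ _ _⟩

section ext

variable (m : PO π₀ v) {H : Type} [Group H] (ι : GG π₀ v m →* H) (s : Sys (Phi G₀ Ω) Q)
  (x : Fin s.n → H)

open Classical in
/-- values of the names -/
noncomputable def val : Ω → H := Function.extend v (fun p => if h : p.1 ∈ m.T then
  ι (mk π₀ v m ⟨var v p.1 p.2, var_mem v h p.2⟩) else if h' : p.1 = s then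
    x (Fin.cast (congrArg Sys.n h') p.2) else 1) (fun _ => 1)

/-- the extended homomorphism -/
noncomputable def Psi : Phi G₀ Ω →* H :=
  Coprod.lift (ι.comp (jj π₀ v m)) (FreeGroup.lift (val π₀ v m ι s x))

theorem Psi_inl (g : G₀) : Psi π₀ v m ι s x (Coprod.inl g) = ι (jj π₀ v m g) := by
  unfold Psi; rw [Coprod.lift_apply_inl]; rfl

theorem Psi_var (t : Sys (Phi G₀ Ω) Q) (ht : t ∈ m.T) (i : Fin t.n) :
    Psi π₀ v m ι s x (var v t i) = ι (mk π₀ v m ⟨var v t i, var_mem v ht i⟩) := by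
  conv_lhs => unfold Psi var
  rw [Coprod.lift_apply_inr, FreeGroup.lift_apply_of]
  unfold val
  rw [v.injective.extend_apply, dif_pos ht]

theorem Psi_new (hs : s ∉ m.T) (i : Fin s.n) : Psi π₀ v m ι s x (var v s i) = x i := by
  unfold Psi var
  rw [Coprod.lift_apply_inr, FreeGroup.lift_apply_of]
  unfold val
  rw [v.injective.extend_apply, dif_neg hs, dif_pos rfl]
  rfl

theorem Psi_mem (w : Phi G₀ Ω) (hw : w ∈ PhiT v m.T) :
    Psi π₀ v m ι s x w = ι (mk π₀ v m ⟨w, hw⟩) := by
  induction hw using Subgroup.closure_induction with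
  | mem w hw =>
    rcases hw with ⟨g, rfl⟩ | ⟨t, ht, i, rfl⟩
    · rw [Psi_inl, jj_apply]
    · rw [Psi_var π₀ v m ι s x t ht i]
  | one =>
    rw [map_one]
    symm
    rw [show (⟨1, _⟩ : ↥(PhiT v m.T)) = 1 from rfl, map_one, map_one]
  | mul a b ha hb iha ihb =>
    rw [map_mul, iha, ihb, ← map_mul, ← map_mul]; rfl
  | inv a ha iha =>
    rw [map_inv, iha, ← map_inv, ← map_inv]; rfl

end ext

theorem extend_false (m : PO π₀ v) (hm : ∀ a, PO.r π₀ v m a → PO.r π₀ v a m)
    {H : Type} [Group H] (hH : LS H) (ι : GG π₀ v m →* H) (hι : Function.Injective ι) (πH : H →* Q)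
    (hπ : πH.comp ι = pi π₀ v m) (s : Sys (Phi G₀ Ω) Q) (hs : s ∉ m.T) (x : Fin s.n → H)
    (hq : ∀ i, πH (x i) = s.q i)
    (hE : ∀ w ∈ s.E, ∃ u, nu π₀ v m s.n u = w ∧ ev ι x (mu π₀ v m s.n u) = 1)
    (hI : ∀ w ∈ s.I, ∃ u, nu π₀ v m s.n u = w ∧ ev ι x (mu π₀ v m s.n u) ≠ 1) : False := by
  classical
  set Ψ := Psi π₀ v m ι s x with hΨ
  let T' : Set (Sys (Phi G₀ Ω) Q) := insert s m.T
  have hTT : m.T ⊆ T' := Set.subset_insert _ _
  have hπ' : ∀ a, πH (ι a) = pi π₀ v m a := fun a => DFunLike.congr_fun hπ a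
  have hQ : ∀ w ∈ PhiT v T', πH (Ψ w) = piO π₀ v w := by
    intro w hw
    induction hw using Subgroup.closure_induction with
    | mem w hw =>
      rcases hw with ⟨g, rfl⟩ | ⟨t, ht, i, rfl⟩
      · rw [hΨ, Psi_inl, hπ', jj_apply, pi_mk]
      · rcases ht with rfl | ht
        · rw [hΨ, Psi_new π₀ v m ι t x hs, hq, piO_var]
        · rw [hΨ, Psi_var π₀ v m ι s x t ht i, hπ', pi_mk]
    | one => simp
    | mul a b ha hb iha ihb => rw [map_mul, map_mul, map_mul, iha, ihb]
    | inv a ha iha => rw [map_inv, map_inv, map_inv, iha]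
  have hmem : ∀ w (hw : w ∈ PhiT v m.T), Ψ w = 1 ↔ w ∈ m.K := by
    intro w hw
    rw [hΨ, Psi_mem π₀ v m ι s x w hw, ← map_one ι, hι.eq_iff, mk_eq_one]
  have hcomp : ∀ u, Ψ (sub v s (nu π₀ v m s.n u)) = ev ι x (mu π₀ v m s.n u) := by
    intro u
    have : (Ψ.comp (sub v s)).comp (nu π₀ v m s.n) = (ev ι x).comp (mu π₀ v m s.n) := by
      apply coprod_ext
      · intro p
        simp only [MonoidHom.comp_apply]
        unfold nu mu sub
        rw [Coprod.map_apply_inl, Coprod.map_apply_inl, ev_inl, ev_inl, hΨ]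
        exact Psi_mem π₀ v m ι s x p.1 p.2
      · intro i
        simp only [MonoidHom.comp_apply]
        unfold nu mu sub
        rw [Coprod.map_apply_inr, Coprod.map_apply_inr, MonoidHom.id_apply, ev_var, ev_var, hΨ]
        exact Psi_new π₀ v m ι s x hs i
    exact DFunLike.congr_fun this u
  have hsubmem : ∀ u, sub v s (nu π₀ v m s.n u) ∈ PhiT v T' := by
    intro u
    induction u using Coprod.induction_on with
    | inl p =>
      unfold nu sub
      rw [Coprod.map_apply_inl, ev_inl]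
      exact PhiT_mono v hTT p.2
    | inr b =>
      unfold nu sub
      rw [Coprod.map_apply_inr, MonoidHom.id_apply]
      induction b using FreeGroup.induction_on with
      | C1 => simp only [map_one]; exact Subgroup.one_mem _
      | of i => rw [ev_var]; exact var_mem v (Set.mem_insert _ _) i
      | inv_of i hi => rw [map_inv, map_inv]; exact Subgroup.inv_mem _ hi
      | mul a b ha hb => rw [map_mul, map_mul]; exact Subgroup.mul_mem _ ha hb
    | mul a b ha hb => rw [map_mul, map_mul]; exact Subgroup.mul_mem _ ha hb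
  have hKle : m.K ≤ Ψ.ker ⊓ PhiT v T' := by
    intro k hk
    exact ⟨(hmem k (m.hK hk)).2 hk, PhiT_mono v hTT (m.hK hk)⟩
  let m' : PO π₀ v :=
    { T := T'
      K := Ψ.ker ⊓ PhiT v T'
      hK := inf_le_right
      hnorm := by
        rintro a ha k ⟨hk1, hk2⟩
        refine ⟨?_, Subgroup.mul_mem _ (Subgroup.mul_mem _ ha hk2) (Subgroup.inv_mem _ ha)⟩
        have hk1' : Ψ k = 1 := hk1
        show Ψ _ = 1
        rw [map_mul, map_mul, map_inv, hk1', mul_one, mul_inv_cancel]
      hinj := by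
        rintro g ⟨hg, -⟩
        have hg' : Ψ _ = 1 := hg
        exact m.hinj g ((hmem _ (inl_mem v m.T g)).1 hg')
      hQ := by
        rintro k ⟨hk1, hk2⟩
        have hk1' : Ψ k = 1 := hk1
        rw [← hQ k hk2, hk1', map_one]
      hLS := by
        intro S hS hST
        obtain ⟨n, hn⟩ := (LS_iff H).1 hH (Ψ '' S) (hS.image _)
        refine ⟨n, le_inf ?_ ((ds_le _ n).trans ((Subgroup.closure_le _).2 hST))⟩
        rw [← MonoidHom.map_closure, ← ds_map] at hn
        exact (Subgroup.map_eq_bot_iff _).1 hn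
      hE := by
        intro t ht w hw
        rcases ht with rfl | ht
        · obtain ⟨u, rfl, hu⟩ := hE w hw
          exact ⟨(hcomp u).trans hu, hsubmem u⟩
        · exact hKle (m.hE t ht w hw)
      hI := by
        intro t ht w hw
        rcases ht with rfl | ht
        · obtain ⟨u, rfl, hu⟩ := hI w hw
          refine ⟨hsubmem u, fun hc => hu ?_⟩
          rw [← hcomp u]
          exact hc.1
        · obtain ⟨h1, h2⟩ := m.hI t ht w hw
          refine ⟨PhiT_mono v hTT h1, fun hc => h2 ?_⟩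
          exact (hmem _ h1).1 hc.1 }
  have hr : PO.r π₀ v m m' := ⟨hTT, hKle, fun w hw hc => (hmem w hw).1 hc.1⟩
  have := (hm m' hr).1 (Set.mem_insert s m.T)
  exact hs this

theorem ecq (m : PO π₀ v) (hm : ∀ a, PO.r π₀ v m a → PO.r π₀ v a m) : ECQ (pi π₀ v m) := by
  intro H _ hH ι πH hι hπ n E I x hE hI
  classical
  choose L hL using mu_surj π₀ v m n
  let s : Sys (Phi G₀ Ω) Q := ⟨n, E.map (fun w => nu π₀ v m n (L w)),
    I.map (fun w => nu π₀ v m n (L w)), fun i => πH (x i)⟩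
  by_cases hs : s ∈ m.T
  · let y : Fin n → GG π₀ v m := fun i => mk π₀ v m ⟨var v s i, var_mem v hs i⟩
    let θ : Coprod (↥(PhiT v m.T)) (FreeGroup (Fin n)) →* ↥(PhiT v m.T) :=
      Coprod.lift (MonoidHom.id _) (FreeGroup.lift (fun i => ⟨var v s i, var_mem v hs i⟩))
    have h1 : ∀ u, ((θ u : ↥(PhiT v m.T)) : Phi G₀ Ω) = sub v s (nu π₀ v m n u) := by
      intro u
      have : (PhiT v m.T).subtype.comp θ = (sub v s).comp (nu π₀ v m n) := by
        apply coprod_ext
        · intro p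
          simp only [MonoidHom.comp_apply, θ]
          rw [Coprod.lift_apply_inl]
          unfold nu sub
          rw [Coprod.map_apply_inl, ev_inl]
          rfl
        · intro i
          simp only [MonoidHom.comp_apply, θ]
          rw [Coprod.lift_apply_inr, FreeGroup.lift_apply_of]
          unfold nu sub
          rw [Coprod.map_apply_inr, MonoidHom.id_apply, ev_var]
          rfl
      exact DFunLike.congr_fun this u
    have h2 : ∀ u, mk π₀ v m (θ u) = ev (MonoidHom.id _) y (mu π₀ v m n u) := by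
      intro u
      have : (mk π₀ v m).comp θ = (ev (MonoidHom.id _) y).comp (mu π₀ v m n) := by
        apply coprod_ext
        · intro p
          simp only [MonoidHom.comp_apply, θ]
          rw [Coprod.lift_apply_inl]
          unfold mu
          rw [Coprod.map_apply_inl, ev_inl]
          rfl
        · intro i
          simp only [MonoidHom.comp_apply, θ]
          rw [Coprod.lift_apply_inr, FreeGroup.lift_apply_of]
          unfold mu
          rw [Coprod.map_apply_inr, MonoidHom.id_apply, ev_var]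
      exact DFunLike.congr_fun this u
    refine ⟨y, ?_, ?_, ?_⟩
    · intro w hw
      rw [← hL w, ← h2, mk_eq_one, h1]
      exact m.hE s hs _ (List.mem_map_of_mem hw)
    · intro w hw
      rw [← hL w, ← h2, Ne, mk_eq_one, h1]
      exact (m.hI s hs _ (List.mem_map_of_mem hw)).2
    · intro i
      show pi π₀ v m (mk π₀ v m _) = _
      rw [pi_mk, piO_var]
  · exfalso
    refine extend_false π₀ v m hm hH ι hι πH hπ s hs x (fun _ => rfl) ?_ ?_
    · intro w hw
      obtain ⟨w0, hw0, rfl⟩ := List.mem_map.1 hw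
      exact ⟨L w0, rfl, by rw [hL w0]; exact hE w0 hw0⟩
    · intro w hw
      obtain ⟨w0, hw0, rfl⟩ := List.mem_map.1 hw
      exact ⟨L w0, rfl, by rw [hL w0]; exact hI w0 hw0⟩

end A

theorem taskA : TaskA := by
  intro Q G₀ _ _ π₀ h0
  obtain ⟨Ω, ⟨v⟩⟩ := exists_names Q G₀
  obtain ⟨m, hm⟩ := A.exists_max π₀ v h0
  exact ⟨A.GG π₀ v m, inferInstance, A.pi π₀ v m, A.jj π₀ v m, A.LS_GG π₀ v m, A.jj_inj π₀ v m,
    A.pi_jj π₀ v m, A.ecq π₀ v m hm⟩

end Pool.Agent.H272R3.EC
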