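import Pool.Agent.H272R3.EC.Ds

set_option autoImplicit false

namespace Pool.Agent.H272R3.EC.V

variable {H : Type} [Group H] (g : H)

/-- closure of the conjugates of `g` by the elements of `K` -/
def vv (K : Subgroup H) : Subgroup H := Subgroup.closure {y | ∃ k ∈ K, y = k * g * k⁻¹}

lemma vv_mono {K L : Subgroup H} (h : K ≤ L) : vv g K ≤ vv g L :=
  Subgroup.closure_mono fun _ ⟨k, hk, e⟩ => ⟨k, h hk, e⟩

lemma fin1 (x : H) (hx : x ∈ Subgroup.normalClosure {g}) :
    ∃ S : Set H, S.Finite ∧ x ∈ vv g (Subgroup.closure S) := by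
  unfold Subgroup.normalClosure at hx
  induction hx using Subgroup.closure_induction with
  | mem x hx =>
    obtain ⟨a, ha, hax⟩ := Group.mem_conjugatesOfSet_iff.1 hx
    rw [Set.mem_singleton_iff] at ha
    subst ha
    obtain ⟨c, hc⟩ := isConj_iff.1 hax
    exact ⟨{c}, Set.finite_singleton c, Subgroup.subset_closure
      ⟨c, Subgroup.subset_closure rfl, hc.symm⟩⟩
  | one => exact ⟨∅, Set.finite_empty, Subgroup.one_mem _⟩
  | mul a b _ _ h1 h2 =>
    obtain ⟨S, hS, h1⟩ := h1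
    obtain ⟨T, hT, h2⟩ := h2
    exact ⟨S ∪ T, hS.union hT, Subgroup.mul_mem _
      (vv_mono g (Subgroup.closure_mono Set.subset_union_left) h1)
      (vv_mono g (Subgroup.closure_mono Set.subset_union_right) h2)⟩
  | inv a _ h1 =>
    obtain ⟨S, hS, h1⟩ := h1
    exact ⟨S, hS, Subgroup.inv_mem _ h1⟩

lemma comm_mono {K L : Subgroup H} (h : K ≤ L) : ⁅vv g K, vv g K⁆ ≤ ⁅vv g L, vv g L⁆ :=
  Subgroup.commutator_mono (vv_mono g h) (vv_mono g h)

lemma fin2 (x : H) (hx : x ∈ ⁅Subgroup.normalClosure {g}, Subgroup.normalClosure {g}⁆) :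
    ∃ S : Set H, S.Finite ∧ x ∈ ⁅vv g (Subgroup.closure S), vv g (Subgroup.closure S)⁆ := by
  rw [Subgroup.commutator_def] at hx
  induction hx using Subgroup.closure_induction with
  | mem x hx =>
    obtain ⟨a, ha, b, hb, rfl⟩ := hx
    obtain ⟨S, hS, h1⟩ := fin1 g a ha
    obtain ⟨T, hT, h2⟩ := fin1 g b hb
    exact ⟨S ∪ T, hS.union hT, Subgroup.commutator_mem_commutator
      (vv_mono g (Subgroup.closure_mono Set.subset_union_left) h1)
      (vv_mono g (Subgroup.closure_mono Set.subset_union_right) h2)⟩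
  | one => exact ⟨∅, Set.finite_empty, Subgroup.one_mem _⟩
  | mul a b _ _ h1 h2 =>
    obtain ⟨S, hS, h1⟩ := h1
    obtain ⟨T, hT, h2⟩ := h2
    exact ⟨S ∪ T, hS.union hT, Subgroup.mul_mem _
      (comm_mono g (Subgroup.closure_mono Set.subset_union_left) h1)
      (comm_mono g (Subgroup.closure_mono Set.subset_union_right) h2)⟩
  | inv a _ h1 =>
    obtain ⟨S, hS, h1⟩ := h1
    exact ⟨S, hS, Subgroup.inv_mem _ h1⟩

lemma conj_vv (K : Subgroup H) (k : H) (hk : k ∈ K) :
    (vv g K).map (MulAut.conj k).toMonoidHom ≤ vv g K := by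
  unfold vv
  rw [MonoidHom.map_closure, Subgroup.closure_le]
  rintro _ ⟨_, ⟨k', hk', rfl⟩, rfl⟩
  refine Subgroup.subset_closure ⟨k * k', K.mul_mem hk hk', ?_⟩
  simp only [MulEquiv.toMonoidHom_eq_coe, MonoidHom.coe_coe, MulAut.conj_apply]
  group

theorem v : TaskV := by
  intro H _ hH g hg
  obtain ⟨S, hS, h1⟩ := fin2 g g hg
  set K := Subgroup.closure (insert g S) with hK
  have hgK : g ∈ K := Subgroup.subset_closure (Set.mem_insert _ _)
  have h2 : g ∈ ⁅vv g K, vv g K⁆ := comm_mono g (Subgroup.closure_mono (Set.subset_insert _ _)) h1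
  have h3 : vv g K ≤ ⁅vv g K, vv g K⁆ := by
    conv_lhs => unfold vv
    rw [Subgroup.closure_le]
    rintro _ ⟨k, hk, rfl⟩
    have h4 : (⁅vv g K, vv g K⁆).map (MulAut.conj k).toMonoidHom ≤ ⁅vv g K, vv g K⁆ := by
      rw [Subgroup.map_commutator]
      exact Subgroup.commutator_mono (conj_vv g K k hk) (conj_vv g K k hk)
    exact h4 ⟨g, h2, rfl⟩
  have h5 : vv g K ≤ K := by
    unfold vv
    rw [Subgroup.closure_le]
    rintro _ ⟨k, hk, rfl⟩
    exact K.mul_mem (K.mul_mem hk hgK) (K.inv_mem hk)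
  have h6 : ∀ n, vv g K ≤ ds K n := by
    intro n
    induction n with
    | zero => exact h5
    | succ n ih => exact h3.trans (Subgroup.commutator_mono ih ih)
  obtain ⟨n, hn⟩ := (LS_iff H).1 hH (insert g S) (hS.insert g)
  have h7 : g ∈ ds K n := h6 n (Subgroup.subset_closure ⟨1, K.one_mem, by group⟩)
  rw [hK, hn] at h7
  exact Subgroup.mem_bot.1 h7

end Pool.Agent.H272R3.EC.V
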