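import Pool.Agent.H272R3.EC.Ds

/-!
# Task W1
-/

set_option autoImplicit false
set_option linter.deprecated false

namespace Pool.Agent.H272R3.EC.W1

open Pool.Agent.H272R3.EC
open scoped commutatorElement

/-- the group of the integers -/
abbrev A : Type := Multiplicative ℤ

/-- the unrestricted wreath product -/
abbrev K0 (G : Type) [Group G] : Type := (A → G) ⋊[(mulAutArrow : A →* MulAut (A → G))] A

variable {G : Type} [Group G]

theorem act_apply (m : A) (f : A → G) (w : A) :
    ((mulAutArrow : A →* MulAut (A → G)) m f) w = f (m⁻¹ * w) := rfl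

theorem mul_left_apply (x y : K0 G) (w : A) :
    (x * y).left w = x.left w * y.left (x.right⁻¹ * w) := rfl

theorem inv_left_apply (x : K0 G) (w : A) :
    (x⁻¹).left w = (x.left (x.right * w))⁻¹ := by
  rw [SemidirectProduct.inv_left, act_apply, inv_inv]
  rfl

/-- functions with values in `C` -/
def WC (C : Subgroup G) : Subgroup (K0 G) where
  carrier := {x | ∀ w, x.left w ∈ C}
  mul_mem' := by
    intro x y hx hy w
    rw [mul_left_apply]
    exact C.mul_mem (hx _) (hy _)
  one_mem' := fun w => C.one_mem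
  inv_mem' := by
    intro x hx w
    rw [inv_left_apply]
    exact C.inv_mem (hx _)

/-- functions with values in `C`, right part trivial -/
def BC (C : Subgroup G) : Subgroup (K0 G) where
  carrier := {x | x.right = 1 ∧ ∀ w, x.left w ∈ C}
  mul_mem' := by
    rintro x y ⟨hx1, hx⟩ ⟨hy1, hy⟩
    refine ⟨by rw [SemidirectProduct.mul_right, hx1, hy1, one_mul], fun w => ?_⟩
    rw [mul_left_apply]
    exact C.mul_mem (hx _) (hy _)
  one_mem' := ⟨rfl, fun w => C.one_mem⟩
  inv_mem' := by
    rintro x ⟨hx1, hx⟩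
    refine ⟨by rw [SemidirectProduct.inv_right, hx1, inv_one], fun w => ?_⟩
    rw [inv_left_apply]
    exact C.inv_mem (hx _)

theorem comm_WC (C : Subgroup G) : ⁅WC C, WC C⁆ ≤ BC C := by
  rw [Subgroup.commutator_le]
  intro x hx y hy
  have h1 : ⁅x, y⁆ ∈ WC C := by
    rw [commutatorElement_def]
    exact (WC C).mul_mem ((WC C).mul_mem ((WC C).mul_mem hx hy) ((WC C).inv_mem hx))
      ((WC C).inv_mem hy)
  refine ⟨?_, h1⟩
  rw [commutatorElement_def, SemidirectProduct.mul_right, SemidirectProduct.mul_right,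
    SemidirectProduct.mul_right, SemidirectProduct.inv_right, SemidirectProduct.inv_right,
    mul_comm x.right y.right]
  group

theorem comm_BC (C : Subgroup G) : ⁅BC C, BC C⁆ ≤ BC ⁅C, C⁆ := by
  rw [Subgroup.commutator_le]
  rintro x ⟨hx1, hx⟩ y ⟨hy1, hy⟩
  refine ⟨?_, fun w => ?_⟩
  · rw [commutatorElement_def, SemidirectProduct.mul_right, SemidirectProduct.mul_right,
      SemidirectProduct.mul_right, SemidirectProduct.inv_right, SemidirectProduct.inv_right,
      hx1, hy1]
    group
  · have e : (⁅x, y⁆ : K0 G).left w = ⁅x.left w, y.left w⁆ := by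
      rw [commutatorElement_def, commutatorElement_def, mul_left_apply, mul_left_apply,
        mul_left_apply, inv_left_apply, inv_left_apply]
      simp only [SemidirectProduct.mul_right, SemidirectProduct.inv_right, hx1, hy1, one_mul,
        inv_one, mul_one]
    rw [e]
    exact Subgroup.commutator_mem_commutator (hx w) (hy w)

theorem ds_BC (C : Subgroup G) (n : ℕ) : ds (BC C) n ≤ BC (ds C n) := by
  induction n with
  | zero => exact le_rfl
  | succ n ih => exact (Subgroup.commutator_mono ih ih).trans (comm_BC _)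

theorem ds_shift {K : Type} [Group K] (B : Subgroup K) (n : ℕ) : ds B (n + 1) = ds ⁅B, B⁆ n := by
  induction n with
  | zero => rfl
  | succ n ih => rw [ds_succ, ih, ds_succ]

theorem ds_WC (C : Subgroup G) (n : ℕ) (h : ds C n = ⊥) : ds (WC C) (n + 1) = ⊥ := by
  rw [eq_bot_iff, ds_shift]
  refine (ds_mono (comm_WC C) n).trans ((ds_BC C n).trans ?_)
  rw [h]
  rintro x ⟨hx1, hx⟩
  rw [Subgroup.mem_bot]
  refine SemidirectProduct.ext ?_ ?_
  · funext w
    exact Subgroup.mem_bot.1 (hx w)
  · exact hx1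

/-- the functions with values in a finitely generated subgroup -/
def W (G : Type) [Group G] : Subgroup (K0 G) where
  carrier := {x | ∃ S : Set G, S.Finite ∧ x ∈ WC (Subgroup.closure S)}
  mul_mem' := by
    rintro x y ⟨S, hS, hx⟩ ⟨S', hS', hy⟩
    refine ⟨S ∪ S', hS.union hS', (WC _).mul_mem ?_ ?_⟩
    · exact fun w => Subgroup.closure_mono Set.subset_union_left (hx w)
    · exact fun w => Subgroup.closure_mono Set.subset_union_right (hy w)
  one_mem' := ⟨∅, Set.finite_empty, (WC _).one_mem⟩
  inv_mem' := by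
    rintro x ⟨S, hS, hx⟩
    exact ⟨S, hS, (WC _).inv_mem hx⟩

theorem LS_W (hG : LS G) : LS ↥(W G) := by
  rw [LS_iff] at hG ⊢
  intro T hT
  have hex : ∀ t : ↥(W G), ∃ S : Set G, S.Finite ∧ (t : K0 G) ∈ WC (Subgroup.closure S) :=
    fun t => t.2
  choose S hS1 hS2 using hex
  set U : Set G := ⋃ t ∈ T, S t with hU
  have hUf : U.Finite := hT.biUnion fun t _ => hS1 t
  obtain ⟨n, hn⟩ := hG U hUf
  refine ⟨n + 1, ?_⟩
  have h1 : (Subgroup.closure T).map (W G).subtype ≤ WC (Subgroup.closure U) := by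
    rw [MonoidHom.map_closure, Subgroup.closure_le]
    rintro _ ⟨t, ht, rfl⟩
    intro w
    exact Subgroup.closure_mono (Set.subset_biUnion_of_mem ht) (hS2 t w)
  refine (Subgroup.map_eq_bot_iff_of_injective _ (W G).subtype_injective).1 ?_
  rw [ds_map, eq_bot_iff]
  refine (ds_mono h1 _).trans ?_
  rw [ds_WC _ n hn]

/-- the diagonal -/
def diag (G : Type) [Group G] : G →* ↥(W G) :=
  (((SemidirectProduct.inl : (A → G) →* K0 G).comp (Pi.constMonoidHom A G)).codRestrict (W G)
    (fun g => ⟨{g}, Set.finite_singleton g, fun _ => Subgroup.subset_closure rfl⟩))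

/-- `n ↦ h ^ n` -/
def ea (h : G) : K0 G := ⟨fun n => h ^ (Multiplicative.toAdd n), 1⟩

/-- the shift -/
def eb (G : Type) [Group G] : K0 G := ⟨fun _ => 1, Multiplicative.ofAdd 1⟩

theorem ea_left (h : G) (w : A) : (ea h).left w = h ^ (Multiplicative.toAdd w) := rfl
theorem ea_right (h : G) : (ea h).right = 1 := rfl
theorem eb_left (w : A) : (eb G).left w = 1 := rfl
theorem eb_right : (eb G).right = Multiplicative.ofAdd 1 := rfl

theorem key (h : G) : (SemidirectProduct.inl (fun _ => h) : K0 G) =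
    ea h * eb G * (ea h)⁻¹ * (eb G)⁻¹ := by
  refine SemidirectProduct.ext ?_ ?_
  · funext w
    rw [mul_left_apply, mul_left_apply, mul_left_apply, inv_left_apply, inv_left_apply]
    simp only [SemidirectProduct.mul_right, SemidirectProduct.inv_right, ea_left, ea_right,
      eb_left, eb_right, one_mul, inv_one, mul_one, SemidirectProduct.left_inl]
    rw [toAdd_mul, toAdd_inv, toAdd_ofAdd, ← zpow_neg, ← zpow_add]
    have : Multiplicative.toAdd w + -(-1 + Multiplicative.toAdd w) = 1 := by ring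
    rw [this, zpow_one]
  · simp only [SemidirectProduct.mul_right, SemidirectProduct.inv_right, ea_right, eb_right,
      one_mul, inv_one, mul_one, mul_inv_cancel, SemidirectProduct.right_inl]

theorem ea_mem (h : G) : ea h ∈ W G := by
  refine ⟨{h}, Set.finite_singleton h, fun w => ?_⟩
  have h1 : h ∈ Subgroup.closure {h} := Subgroup.subset_closure (Set.mem_singleton h)
  rw [ea_left]
  exact Subgroup.zpow_mem _ h1 _

theorem eb_mem : eb G ∈ W G :=
  ⟨∅, Set.finite_empty, fun _ => Subgroup.one_mem _⟩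

theorem diag_val (g : G) : ((diag G g : ↥(W G)) : K0 G) = SemidirectProduct.inl (fun _ => g) := rfl

theorem key' (h : G) : diag G h = (⟨ea h, ea_mem h⟩ : ↥(W G)) * ⟨eb G, eb_mem⟩ *
    (⟨ea h, ea_mem h⟩ : ↥(W G))⁻¹ * (⟨eb G, eb_mem⟩ : ↥(W G))⁻¹ := by
  apply Subtype.ext
  rw [diag_val, key]
  rfl

theorem diag_inj : Function.Injective (diag G) := by
  intro g g' hgg
  have h1 : ((diag G g : ↥(W G)) : K0 G) = diag G g' := congrArg _ hgg
  rw [diag_val, diag_val] at h1
  have h2 := SemidirectProduct.inl_injective h1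
  exact congrFun h2 1

theorem w1 : TaskW1 := by
  intro Q G _ _ π hG hQ h hh
  refine ⟨↥(W G) × Q, inferInstance, (diag G).prod π, MonoidHom.snd _ _,
    LS_prod (LS_W hG) hQ, ?_, ?_, (⟨ea h, ea_mem h⟩, 1), (⟨eb G, eb_mem⟩, 1), rfl, rfl, ?_⟩
  · intro g g' hgg
    exact diag_inj (congrArg Prod.fst hgg)
  · ext g
    rfl
  · have e1 : ((diag G).prod π) h = (diag G h, 1) := by
      rw [MonoidHom.prod_apply, hh]
    rw [e1, key']
    simp only [Prod.mk_mul_mk, Prod.inv_mk, inv_one, mul_one]

end Pool.Agent.H272R3.EC.W1
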