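import Pool.Agent.H272R3.EC.Card

set_option autoImplicit false
set_option linter.deprecated false

open Monoid

namespace Pool.Agent.H272R3.EC.A

/-- the free product -/
abbrev Phi (G₀ Ω : Type) [Group G₀] := Coprod G₀ (FreeGroup Ω)

variable {Q G₀ Ω : Type} [Group Q] [Group G₀] (π₀ : G₀ →* Q)
  (v : (Σ s : Sys (Phi G₀ Ω) Q, Fin s.n) ↪ Ω)

/-- the variables of a system -/
noncomputable def var (s : Sys (Phi G₀ Ω) Q) (i : Fin s.n) : Phi G₀ Ω :=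
  Coprod.inr (FreeGroup.of (v ⟨s, i⟩))

/-- value of a variable in `Q` -/
noncomputable def qv : Ω → Q := Function.extend v (fun p => p.1.q p.2) (fun _ => 1)

/-- the map to `Q` -/
noncomputable def piO : Phi G₀ Ω →* Q := Coprod.lift π₀ (FreeGroup.lift (qv v))

theorem piO_var (s : Sys (Phi G₀ Ω) Q) (i : Fin s.n) : piO π₀ v (var v s i) = s.q i := by
  unfold piO var
  rw [Coprod.lift_apply_inr, FreeGroup.lift_apply_of]
  unfold qv
  rw [v.injective.extend_apply]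

theorem piO_inl (g : G₀) : piO π₀ v (Coprod.inl g) = π₀ g := by
  unfold piO
  rw [Coprod.lift_apply_inl]

/-- the subgroup generated by the constants and the variables of the systems in `T` -/
def PhiT (T : Set (Sys (Phi G₀ Ω) Q)) : Subgroup (Phi G₀ Ω) :=
  Subgroup.closure (Set.range (Coprod.inl : G₀ →* Phi G₀ Ω) ∪ {w | ∃ s ∈ T, ∃ i, w = var v s i})

theorem PhiT_mono {T T' : Set (Sys (Phi G₀ Ω) Q)} (h : T ⊆ T') : PhiT v T ≤ PhiT v T' := by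
  apply Subgroup.closure_mono
  apply Set.union_subset_union_right
  rintro w ⟨s, hs, i, rfl⟩
  exact ⟨s, h hs, i, rfl⟩

theorem inl_mem (T : Set (Sys (Phi G₀ Ω) Q)) (g : G₀) : Coprod.inl g ∈ PhiT v T :=
  Subgroup.subset_closure (Or.inl ⟨g, rfl⟩)

theorem var_mem {T : Set (Sys (Phi G₀ Ω) Q)} {s : Sys (Phi G₀ Ω) Q} (hs : s ∈ T) (i : Fin s.n) :
    var v s i ∈ PhiT v T :=
  Subgroup.subset_closure (Or.inr ⟨s, hs, i, rfl⟩)

/-- substitution of the variables of a system -/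
noncomputable def sub (s : Sys (Phi G₀ Ω) Q) :
    Coprod (Phi G₀ Ω) (FreeGroup (Fin s.n)) →* Phi G₀ Ω :=
  ev (MonoidHom.id _) (fun i => var v s i)

/-- partial objects -/
structure PO where
  T : Set (Sys (Phi G₀ Ω) Q)
  K : Subgroup (Phi G₀ Ω)
  hK : K ≤ PhiT v T
  hnorm : ∀ x ∈ PhiT v T, ∀ k ∈ K, x * k * x⁻¹ ∈ K
  hinj : ∀ g : G₀, Coprod.inl g ∈ K → g = 1
  hQ : ∀ k ∈ K, piO π₀ v k = 1
  hLS : ∀ S : Set (Phi G₀ Ω), S.Finite → S ⊆ PhiT v T → ∃ n, ds (Subgroup.closure S) n ≤ K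
  hE : ∀ s ∈ T, ∀ w ∈ s.E, sub v s w ∈ K
  hI : ∀ s ∈ T, ∀ w ∈ s.I, sub v s w ∈ PhiT v T ∧ sub v s w ∉ K

/-- extension -/
def PO.r (a b : PO π₀ v) : Prop :=
  a.T ⊆ b.T ∧ a.K ≤ b.K ∧ ∀ w ∈ PhiT v a.T, w ∈ b.K → w ∈ a.K

theorem PO.r_refl (a : PO π₀ v) : PO.r π₀ v a a := ⟨subset_rfl, le_rfl, fun _ _ h => h⟩

theorem PO.r_trans {a b c : PO π₀ v} (h1 : PO.r π₀ v a b) (h2 : PO.r π₀ v b c) : PO.r π₀ v a c :=
  ⟨h1.1.trans h2.1, h1.2.1.trans h2.2.1,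
    fun w hw hc => h1.2.2 w hw (h2.2.2 w (PhiT_mono v h1.1 hw) hc)⟩

theorem chain_total {c : Set (PO π₀ v)} (hc : IsChain (PO.r π₀ v) c) (a b : PO π₀ v) (ha : a ∈ c)
    (hb : b ∈ c) : PO.r π₀ v a b ∨ PO.r π₀ v b a := by
  by_cases h : a = b
  · subst h; exact Or.inl (PO.r_refl π₀ v a)
  · exact hc ha hb h

theorem chain_ub (c : Set (PO π₀ v)) (hc : IsChain (PO.r π₀ v) c) (hne : c.Nonempty) :
    ∃ ub, ∀ a ∈ c, PO.r π₀ v a ub := by
  haveI : Nonempty c := hne.to_subtype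
  have hdK : Directed (· ≤ ·) (fun a : c => a.1.K) := by
    intro a b
    rcases chain_total π₀ v hc a.1 b.1 a.2 b.2 with h | h
    · exact ⟨b, h.2.1, le_rfl⟩
    · exact ⟨a, le_rfl, h.2.1⟩
  have hdP : Directed (· ≤ ·) (fun a : c => PhiT v a.1.T) := by
    intro a b
    rcases chain_total π₀ v hc a.1 b.1 a.2 b.2 with h | h
    · exact ⟨b, PhiT_mono v h.1, le_rfl⟩
    · exact ⟨a, le_rfl, PhiT_mono v h.1⟩
  let T : Set (Sys (Phi G₀ Ω) Q) := ⋃ a : c, a.1.T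
  let K : Subgroup (Phi G₀ Ω) := ⨆ a : c, a.1.K
  have hmK : ∀ k, k ∈ K ↔ ∃ a : c, k ∈ a.1.K := fun k => Subgroup.mem_iSup_of_directed hdK
  have hT : ∀ a : c, a.1.T ⊆ T := fun a => Set.subset_iUnion (fun a : c => a.1.T) a
  have hPT : ∀ w ∈ PhiT v T, ∃ a : c, w ∈ PhiT v a.1.T := by
    have : PhiT v T ≤ ⨆ a : c, PhiT v a.1.T := by
      unfold PhiT
      rw [Subgroup.closure_le]
      rintro w (⟨g, rfl⟩ | ⟨s, hs, i, rfl⟩)
      · exact (Subgroup.mem_iSup_of_directed hdP).2 ⟨Classical.arbitrary c, inl_mem v _ g⟩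
      · obtain ⟨a, ha⟩ := Set.mem_iUnion.1 hs
        exact (Subgroup.mem_iSup_of_directed hdP).2 ⟨a, var_mem v ha i⟩
    intro w hw
    exact (Subgroup.mem_iSup_of_directed hdP).1 (this hw)
  have hfin : ∀ S : Set (Phi G₀ Ω), S.Finite → S ⊆ PhiT v T → ∃ a : c, S ⊆ PhiT v a.1.T := by
    intro S hS
    induction S, hS using Set.Finite.induction_on with
    | empty => intro _; exact ⟨Classical.arbitrary c, Set.empty_subset _⟩
    | @insert x S _ _ ih =>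
      intro h
      obtain ⟨a, ha⟩ := ih ((Set.subset_insert _ _).trans h)
      obtain ⟨b, hb⟩ := hPT x (h (Set.mem_insert _ _))
      obtain ⟨d, hd1, hd2⟩ := hdP a b
      refine ⟨d, ?_⟩
      rintro y (rfl | hy)
      · exact hd2 hb
      · exact hd1 (ha hy)
  have key : ∀ a : c, ∀ w ∈ PhiT v a.1.T, w ∈ K → w ∈ a.1.K := by
    intro a w hw hk
    obtain ⟨b, hb⟩ := (hmK w).1 hk
    rcases chain_total π₀ v hc a.1 b.1 a.2 b.2 with h | h
    · exact h.2.2 w hw hb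
    · exact h.2.1 hb
  have hle : ∀ a : c, a.1.K ≤ K := fun a => le_iSup (fun a : c => a.1.K) a
  refine ⟨⟨T, K, ?_, ?_, ?_, ?_, ?_, ?_, ?_⟩, ?_⟩
  · intro k hk
    obtain ⟨a, ha⟩ := (hmK k).1 hk
    exact PhiT_mono v (hT a) (a.1.hK ha)
  · intro x hx k hk
    obtain ⟨a, ha⟩ := (hmK k).1 hk
    obtain ⟨b, hb⟩ := hPT x hx
    rcases chain_total π₀ v hc a.1 b.1 a.2 b.2 with h | h
    · exact hle b (b.1.hnorm x hb k (h.2.1 ha))
    · exact hle a (a.1.hnorm x (PhiT_mono v h.1 hb) k ha)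
  · intro g hg
    obtain ⟨a, ha⟩ := (hmK _).1 hg
    exact a.1.hinj g ha
  · intro k hk
    obtain ⟨a, ha⟩ := (hmK k).1 hk
    exact a.1.hQ k ha
  · intro S hS hST
    obtain ⟨a, ha⟩ := hfin S hS hST
    obtain ⟨n, hn⟩ := a.1.hLS S hS ha
    exact ⟨n, hn.trans (hle a)⟩
  · intro s hs w hw
    obtain ⟨a, ha⟩ := Set.mem_iUnion.1 hs
    exact hle a (a.1.hE s ha w hw)
  · intro s hs w hw
    obtain ⟨a, ha⟩ := Set.mem_iUnion.1 hs
    obtain ⟨h1, h2⟩ := a.1.hI s ha w hw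
    exact ⟨PhiT_mono v (hT a) h1, fun h3 => h2 (key a _ h1 h3)⟩
  · intro a ha
    exact ⟨hT ⟨a, ha⟩, hle ⟨a, ha⟩, key ⟨a, ha⟩⟩

theorem start (h0 : LS G₀) : Nonempty (PO π₀ v) := by
  have hinj : Function.Injective (Coprod.inl : G₀ →* Phi G₀ Ω) := Coprod.inl_injective
  have hP : ∀ w ∈ PhiT v (∅ : Set (Sys (Phi G₀ Ω) Q)), ∃ g : G₀, Coprod.inl g = w := by
    intro w hw
    have : PhiT v (∅ : Set (Sys (Phi G₀ Ω) Q)) ≤ (Coprod.inl : G₀ →* Phi G₀ Ω).range := by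
      unfold PhiT
      rw [Subgroup.closure_le]
      rintro w (⟨g, rfl⟩ | ⟨s, hs, i, rfl⟩)
      · exact ⟨g, rfl⟩
      · exact absurd hs (Set.notMem_empty _)
    exact this hw
  refine ⟨⟨∅, ⊥, bot_le, ?_, ?_, ?_, ?_, ?_, ?_⟩⟩
  · intro x _ k hk
    rw [Subgroup.mem_bot] at hk ⊢
    rw [hk]; simp
  · intro g hg
    rw [Subgroup.mem_bot] at hg
    exact hinj (hg.trans (map_one _).symm)
  · intro k hk
    rw [Subgroup.mem_bot] at hk
    rw [hk, map_one]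
  · intro S hS hST
    obtain ⟨n, hn⟩ := (LS_iff G₀).1 h0 ((Coprod.inl : G₀ →* Phi G₀ Ω) ⁻¹' S) (hS.preimage hinj.injOn)
    refine ⟨n, ?_⟩
    have e : (Coprod.inl : G₀ →* Phi G₀ Ω) '' ((Coprod.inl : G₀ →* Phi G₀ Ω) ⁻¹' S) = S := by
      rw [Set.image_preimage_eq_iff]
      intro w hw
      exact hP w (hST hw)
    rw [← e, ← MonoidHom.map_closure, ← ds_map, hn, Subgroup.map_bot]
  · intro s hs; exact absurd hs (Set.notMem_empty _)
  · intro s hs; exact absurd hs (Set.notMem_empty _)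

theorem exists_max (h0 : LS G₀) : ∃ m : PO π₀ v, ∀ a, PO.r π₀ v m a → PO.r π₀ v a m := by
  haveI := start π₀ v h0
  exact exists_maximal_of_nonempty_chains_bounded (fun c hc hne => chain_ub π₀ v c hc hne)
    (fun h1 h2 => PO.r_trans π₀ v h1 h2)

end Pool.Agent.H272R3.EC.A
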